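import Pool.Agent.TH570.Hopf.Scal

/-!
# Ricci pinching and the Gauss-Bonnet-Chern integrand in dimension six

If all sectional curvatures of an algebraic curvature tensor in dimension six are at least `c > 0` and
all its Ricci curvatures are at most `14 c` (no upper bound for single sectional curvatures beyond
this), then the Gauss-Bonnet-Chern integrand is at least `kap6 · c² (scal / 10 - 2 c) ≥ kap6 · c³`,
where `kap6 = 15 / (8 π³)`; in particular it is at least its value for constant curvature `c`, so it is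
positive, and so is the Euler characteristic of a closed Riemannian six-manifold with this property
at each point.

Proof: write `R = c R₀ + T` with `R₀` of constant curvature one and `T` of nonnegative sectional
curvature and expand the integrand in `T`. The dual `E` of `T ∧ T` has nonnegative sectional values
by the Gauss-Bonnet inequality in dimension four, and two tensors `A, E` with nonnegative sectional
values satisfy `⟨Ric A, Ric E⟩ + (3/2) ⟨A, E⟩ ≥ 0`; the Ricci bound controls the first term.
-/

set_option autoImplicit false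

namespace Pool.Agent.Results.MP_4a593f_gt.RicciPinchedDimSix

open Hopf6 MeasureTheory Pool.Agent.TH570.Hopf

/-- **Ricci pinching in dimension six.**
(1) The pointwise bound for `K ≥ c ≥ 0` and `Ric ≤ 14 c`.
(2) The integrated bound for a field of curvature tensors with `K ≥ c` and `Ric ≤ 14 c`, where
`c > 0` may depend on the point. -/
theorem result :
    (∀ (V : Type) [NormedAddCommGroup V] [InnerProductSpace ℝ V]
      (e : OrthonormalBasis (Fin 6) ℝ V) (R : V → V → V → V → ℝ), AlgCurv R →
      ∀ c : ℝ, 0 ≤ c → SecGe R c → (∀ x : V, ‖x‖ = 1 → ric e R x ≤ 14 * c) →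
        kap6 * (c ^ 2 * (scalar e R / 10 - 2 * c)) ≤ Hopf6.gbc e R ∧
        kap6 * c ^ 3 ≤ kap6 * (c ^ 2 * (scalar e R / 10 - 2 * c))) ∧
    (∀ (M : Type) [MeasurableSpace M] (μ : Measure M) (K : CurvField M) (c : M → ℝ), μ ≠ 0 →
      (∀ p, 0 < c p ∧ SecGe (K.R p) (c p) ∧ ∀ x : K.V p, ‖x‖ = 1 → ric (K.e p) (K.R p) x ≤ 14 * c p) →
      Integrable K.gbc μ →
        0 < ∫ p, K.gbc p ∂μ ∧
        (Integrable (fun p => c p ^ 3) μ → kap6 * ∫ p, c p ^ 3 ∂μ ≤ ∫ p, K.gbc p ∂μ)) := by
  have hpt : ∀ (V : Type) [NormedAddCommGroup V] [InnerProductSpace ℝ V]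
      (e : OrthonormalBasis (Fin 6) ℝ V) (R : V → V → V → V → ℝ), AlgCurv R →
      ∀ c : ℝ, 0 ≤ c → SecGe R c → (∀ x : V, ‖x‖ = 1 → ric e R x ≤ 14 * c) →
        kap6 * (c ^ 2 * (scalar e R / 10 - 2 * c)) ≤ Hopf6.gbc e R ∧
        kap6 * c ^ 3 ≤ kap6 * (c ^ 2 * (scalar e R / 10 - 2 * c)) := by
    intro V _ _ e R hR c hc h hr
    refine ⟨ric_bound_pos e hR hc h hr, ?_⟩
    have h1 : 30 * c ≤ scalar e R := scalar_ge e hR h
    have hk := kap6_pos.le
    refine mul_le_mul_of_nonneg_left ?_ hk
    have h2 : 0 ≤ c ^ 2 * (scalar e R / 10 - 2 * c - c) :=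
      mul_nonneg (by positivity) (by linarith)
    nlinarith
  refine ⟨hpt, ?_⟩
  intro M _ μ K c hμ h hint
  have hle : ∀ p, kap6 * c p ^ 3 ≤ K.gbc p := fun p =>
    have h1 := hpt (K.V p) (K.e p) (K.R p) (K.curv p) (c p) (h p).1.le (h p).2.1 (h p).2.2
    h1.2.trans h1.1
  have hpos : ∀ p, 0 < K.gbc p := fun p =>
    lt_of_lt_of_le (mul_pos kap6_pos (pow_pos (h p).1 3)) (hle p)
  constructor
  · rw [integral_pos_iff_support_of_nonneg (fun p => (hpos p).le) hint]
    have hs : Function.support (fun p => K.gbc p) = Set.univ := by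
      ext p
      simp only [Function.mem_support, Set.mem_univ, iff_true]
      exact (hpos p).ne'
    rw [hs]
    exact Measure.measure_univ_pos.2 hμ
  · intro h3
    rw [← integral_const_mul]
    exact integral_mono (h3.const_mul _) hint fun p => hle p

end Pool.Agent.Results.MP_4a593f_gt.RicciPinchedDimSix
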