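import Pool.Agent.TH570.Hopf.Final

/-!
# A sharp linear lower bound for the Gauss-Bonnet-Chern integrand in dimension six

If all sectional curvatures of an algebraic curvature tensor in dimension six lie in `[0, c]`, then
the Gauss-Bonnet-Chern integrand is at least `kap6 · c² (scal / 10 - 2 c)`, where `kap6 = 15 / (8 π³)`
is its value for constant curvature one. So a closed Riemannian six-manifold with `0 ≤ K ≤ c` whose
scalar curvature is more than `20 c` in the mean over the manifold has positive Euler
characteristic. The bound is attained for every value of the scalar curvature between `20 c` (a line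
times a space of constant curvature) and `30 c` (constant curvature).

Proof: write `R = c R₀ - T` with `R₀` of constant curvature one and expand the integrand in `T`.
The dual `E` of `T ∧ T` has nonnegative sectional values by the Gauss-Bonnet inequality in dimension
four, and two tensors `A, E` with nonnegative sectional values satisfy
`⟨Ric A, Ric E⟩ + (3/2) ⟨A, E⟩ ≥ 0` (average over the unit vectors `x` of the traces of the products
of the Jacobi operators of `x`).
-/

set_option autoImplicit false

namespace Pool.Agent.Results.MP_4a593f_gt.SharpMeanDimSix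

open Hopf6 MeasureTheory Pool.Agent.TH570.Hopf

/-- **The sharp linear lower bound for the integrand in dimension six.**
(1) The pointwise bound for `0 ≤ K ≤ c`.
(2) The integrated bound for a field of curvature tensors with `0 ≤ K ≤ c`, where `c` may depend on
the point.
(3) For constant `c`, the sign follows from the mean of the scalar curvature over `M`.
(4) Sharpness: the bound is attained for every value of the scalar curvature in `[20 c, 30 c]`. -/
theorem result :
    (∀ (V : Type) [NormedAddCommGroup V] [InnerProductSpace ℝ V]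
      (e : OrthonormalBasis (Fin 6) ℝ V) (R : V → V → V → V → ℝ), AlgCurv R →
      ∀ c : ℝ, 0 ≤ c → Hopf6.SecIn R 0 c →
        kap6 * (c ^ 2 * (scalar e R / 10 - 2 * c)) ≤ Hopf6.gbc e R) ∧
    (∀ (M : Type) [MeasurableSpace M] (μ : Measure M) (K : CurvField M) (c : M → ℝ),
      (∀ p, 0 ≤ c p ∧ K.SecIn p 0 (c p)) → Integrable K.gbc μ →
      Integrable (fun p => c p ^ 2 * (K.scal p / 10 - 2 * c p)) μ →
        kap6 * ∫ p, c p ^ 2 * (K.scal p / 10 - 2 * c p) ∂μ ≤ ∫ p, K.gbc p ∂μ) ∧
    (∀ (M : Type) [MeasurableSpace M] (μ : Measure M) [IsFiniteMeasure μ] (K : CurvField M)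
      (c : ℝ), 0 < c → (∀ p, K.SecIn p 0 c) → Integrable K.gbc μ → Integrable K.scal μ →
        (20 * c * μ.real Set.univ ≤ ∫ p, K.scal p ∂μ → 0 ≤ ∫ p, K.gbc p ∂μ) ∧
        (20 * c * μ.real Set.univ < ∫ p, K.scal p ∂μ → 0 < ∫ p, K.gbc p ∂μ)) ∧
    (∀ c t : ℝ, 0 ≤ c → 0 ≤ t → t ≤ 1 → ∃ R : E6 → E6 → E6 → E6 → ℝ, AlgCurv R ∧
      Hopf6.SecIn R 0 c ∧
      scalar (EuclideanSpace.basisFun (Fin 6) ℝ) R = (30 - 10 * t) * c ∧
      Hopf6.gbc (EuclideanSpace.basisFun (Fin 6) ℝ) R =
        kap6 * (c ^ 2 * (scalar (EuclideanSpace.basisFun (Fin 6) ℝ) R / 10 - 2 * c))) := by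
  have hP : ∀ (M : Type) [MeasurableSpace M] (μ : Measure M) (K : CurvField M) (c : M → ℝ),
      (∀ p, 0 ≤ c p ∧ K.SecIn p 0 (c p)) → Integrable K.gbc μ →
      Integrable (fun p => c p ^ 2 * (K.scal p / 10 - 2 * c p)) μ →
        kap6 * ∫ p, c p ^ 2 * (K.scal p / 10 - 2 * c p) ∂μ ≤ ∫ p, K.gbc p ∂μ := by
    intro M _ μ K c h h1 h2
    rw [← integral_const_mul]
    exact integral_mono (h2.const_mul _) h1 fun p =>
      mean_bound_pos (K.e p) (K.curv p) (h p).1 (h p).2
  refine ⟨fun V _ _ e R hR c hc h => mean_bound_pos e hR hc h, hP, ?_, ?_⟩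
  · intro M _ μ _ K c hc h h1 h2
    have hi : Integrable (fun p => c ^ 2 * (K.scal p / 10 - 2 * c)) μ :=
      ((h2.div_const _).sub (integrable_const _)).const_mul _
    have h3 := hP M μ K (fun _ => c) (fun p => ⟨hc.le, h p⟩) h1 hi
    have h4 : ∫ p, c ^ 2 * (K.scal p / 10 - 2 * c) ∂μ =
        c ^ 2 * ((∫ p, K.scal p ∂μ) / 10 - 2 * c * μ.real Set.univ) := by
      rw [integral_const_mul, integral_sub (h2.div_const _) (integrable_const _),
        integral_div, integral_const, smul_eq_mul]
      ring
    simp only [h4] at h3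
    have hk := kap6_pos
    have hc2 : 0 < c ^ 2 := by positivity
    refine ⟨fun h5 => le_trans ?_ h3, fun h5 => lt_of_lt_of_le ?_ h3⟩
    · have h6 : 0 ≤ (∫ p, K.scal p ∂μ) / 10 - 2 * c * μ.real Set.univ := by linarith
      exact mul_nonneg hk.le (mul_nonneg hc2.le h6)
    · have h6 : 0 < (∫ p, K.scal p ∂μ) / 10 - 2 * c * μ.real Set.univ := by linarith
      exact mul_pos hk (mul_pos hc2 h6)
  · intro c t hc h0 h1
    have hs := ext_sec hc h0 h1
    refine ⟨fun x y z w => - ext6 c t x y z w, neg_curv (ext6_curv c t), ?_, ?_, ?_⟩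
    · exact neg_sec (a := 0) (b := c) (by rwa [neg_zero])
    · rw [scalar_neg, scalar_ext]
      ring
    · rw [scalar_neg, gbc_neg, gbc_ext]
      ring

end Pool.Agent.Results.MP_4a593f_gt.SharpMeanDimSix
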