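import Pool.Agent.TH594.HP.Field

/-!
# Positivity of the Gauss–Bonnet–Chern integrand under an upper bound of the curvature operator and a
sharp lower bound of the scalar curvature

Let `n = 2 m`. If at a point of a Riemannian `n`-manifold the curvature operator is at most `c`,
`c > 0`, and the scalar curvature is at least `c (n - 1) (n - 2)` (its value for the product of the
sphere of dimension `n - 1` and a line; for constant curvature `c` it is `c n (n - 1)`), then
the Gauss–Bonnet–Chern integrand is nonnegative, and positive if the second inequality is strict. So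
a closed Riemannian manifold with such a metric has Euler characteristic `≥ 0`, and `> 0` if the
inequality is strict somewhere. The scalar curvature bound is sharp in every dimension. Under these
hypotheses the sum of the `n - 1` lowest eigenvalues of the curvature operator is nonnegative, while
the vanishing theorem of Petersen and Wink for all Betti numbers `b_1, …, b_{n - 1}` needs such a
condition for `n / 2` eigenvalues (here: scalar curvature more than `c n (n - 2)`).

The proof is in `Pool/Agent/TH594/HP/` (Gallot–Meyer type inequality for exterior products).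
-/

set_option autoImplicit false

namespace Pool.Agent.Results.MP_4a593f_gt.SharpScalarPinching

open Pool.Agent.W666.GB Pool.Agent.W669.HD MeasureTheory

/-- **Curvature operator `≤ c` and scalar curvature `≥ c (n - 1) (n - 2)`, `n = 2 m`.** -/
theorem result :
    -- (1) the pointwise inequality
    (∀ (m : ℕ) (V : Type) [NormedAddCommGroup V] [InnerProductSpace ℝ V]
      (e : OrthonormalBasis (Fin m × Bool) ℝ V) (R : V → V → V → V → ℝ) (c : ℝ),
      AlgCurv R → 0 < c → OpNonneg (addT (negT R) fun x y z w => c * unitT x y z w) →
      c * ((2 * m - 1) * (2 * m - 2)) ≤ scal e R →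
        roundGB m c * (scal e R - c * ((2 * m - 1) * (2 * m - 2))) ≤
          2 * c * (2 * m - 1) * gbc e R) ∧
    -- (2) equality holds for a family crossing the threshold (at `t = 1`)
    (∀ (m : ℕ) (V : Type) [NormedAddCommGroup V] [InnerProductSpace ℝ V]
      (e : OrthonormalBasis (Fin m × Bool) ℝ V) (c t : ℝ), 1 ≤ m → 0 < c → 0 ≤ t →
      ∃ R : V → V → V → V → ℝ, AlgCurv R ∧
        OpNonneg (addT (negT R) fun x y z w => c * unitT x y z w) ∧
        scal e R = c * ((2 * m - 1) * (2 * m - 2)) - (t - 1) * (2 * c * (2 * m - 1)) ∧
        gbc e R = (1 - t) * roundGB m c) ∧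
    -- (3) the integrated form, with the strict inequality
    (∀ (m : ℕ) (M : Type) [MeasurableSpace M] (μ : Measure M) (K : CurvField m M) (c : M → ℝ),
      (∀ p, 0 ≤ c p ∧ OpNonneg (addT (negT (K.R p)) fun x y z w => c p * unitT x y z w) ∧
        c p * ((2 * m - 1) * (2 * m - 2)) ≤ scal (K.e p) (K.R p)) →
      0 ≤ ∫ p, K.gb p ∂μ ∧
        (Integrable K.gb μ → μ {p | 0 < c p ∧ c p * ((2 * m - 1) * (2 * m - 2)) <
          scal (K.e p) (K.R p)} ≠ 0 → 0 < ∫ p, K.gb p ∂μ)) :=
  ⟨fun _ _ _ _ e _ _ hR hc h hs => Pool.Agent.TH594.HP.point_pos e hR hc h hs,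
    fun _ _ _ _ e _ _ hm hc ht => Pool.Agent.TH594.HP.eq_family_pos e hm hc ht,
    fun _ _ _ μ K c h => Pool.Agent.TH594.HP.field_pos μ K c h⟩

end Pool.Agent.Results.MP_4a593f_gt.SharpScalarPinching
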